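import Pool.Agent.helper19.HF.MAIN
import Pool.Agent.helper78.HF.EXT

/-!
# Project HF (MP_bf63dc_nt): the uniform form of the abstract theorem

`UNI`: for `α ≤ 1/2`, `δ > 0` there are `k, η, Q, K` such that for ALL `g, D, L` with the clique property for THIS `k, η` (with `D`, `L`) every chain `s 0 ∣ s 1 ∣ ...` with `D ∣ s 0` and
`Q s i ∣ s (i + 1)` contains among its first `K` members one, `s i`, such that `{t : g (s i * t)}` has lower Banach density at least `2 α - δ`.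
The infimum in EXT is replaced by a pigeonhole argument: the Fekete constants of the steps `s i` decrease.
-/

set_option autoImplicit false

namespace Pool.Agent.HF

open Finset

open Classical in
/-- the clique property for one `k`, `η`, with `D`, `L` -/
def HypAt (g : ℕ → Prop) (α : ℝ) (k : ℕ) (η : ℝ) (D L : ℕ) : Prop := ∀ F : Fin k → Finset ℕ, (∀ i, ∀ x ∈ F i, D ∣ x) → (∀ i, L ≤ #(F i)) →
  (#{x ∈ Fintype.piFinset F | ¬ Clq g α x} : ℝ) ≤ η * ∏ i, (#(F i) : ℝ)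

open Classical in
/-- `{t : g (m t)}` has lower Banach density at least `d` -/
def Gd (g : ℕ → Prop) (d : ℝ) (m : ℕ) : Prop := ∃ l₀ : ℕ, ∀ l : ℕ, l₀ ≤ l → ∀ u : ℕ, d * l ≤ (#{t ∈ Ioc u (u + l) | g (m * t)} : ℝ)

theorem UNI_cli (g : ℕ → Prop) (α : ℝ) (n b : ℕ) (η : ℝ) (D L : ℕ) (H : HypAt g α (n * b) η D L) :
    ∀ (R : ℕ) (P : Fin b → ℕ → ℕ), L ≤ R →
    (∀ β u v, u < v → P β u < P β v) → (∀ β u, D ∣ P β u) → by
      classical
      exact (#{ω : Om n b R | ¬ ∃ J : Finset (Fin n × Fin b), α * (n * b) ≤ #J ∧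
        ∀ x ∈ J, ∀ y ∈ J, x.2 ≠ y.2 → P x.2 (ω x.1 x.2) < P y.2 (ω y.1 y.2) → g (P y.2 (ω y.1 y.2) - P x.2 (ω x.1 x.2))} : ℝ) ≤ η * (R : ℝ) ^ (n * b) := by
  classical
  intro R P hLR hmono hdvd
  have hinj : ∀ β u v, P β u = P β v → u = v := by
    intro β u v h
    rcases lt_trichotomy u v with h1 | h1 | h1
    · exact absurd h (hmono β u v h1).ne
    · exact h1
    · exact absurd h.symm (hmono β v u h1).ne
  let σ : Fin (n * b) ≃ Fin n × Fin b := finProdFinEquiv.symm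
  let F : Fin (n * b) → Finset ℕ := fun i => (range R).image (P (σ i).2)
  have hF : ∀ i, #(F i) = R := by
    intro i
    rw [Finset.card_image_of_injective _ (fun u v h => hinj _ u v h), card_range]
  have h1 := H F (by
    intro i x hx
    obtain ⟨u, -, rfl⟩ := Finset.mem_image.1 hx
    exact hdvd _ _) (fun i => by rw [hF]; exact hLR)
  let f : Om n b R → Fin (n * b) → ℕ := fun ω i => P (σ i).2 (ω (σ i).1 (σ i).2 : ℕ)
  have h2 : #{ω : Om n b R | ¬ ∃ J : Finset (Fin n × Fin b), α * (n * b) ≤ #J ∧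
      ∀ x ∈ J, ∀ y ∈ J, x.2 ≠ y.2 → P x.2 (ω x.1 x.2) < P y.2 (ω y.1 y.2) → g (P y.2 (ω y.1 y.2) - P x.2 (ω x.1 x.2))} ≤
      #{x ∈ Fintype.piFinset F | ¬ Clq g α x} := by
    refine Finset.card_le_card_of_injOn f ?_ ?_
    · intro ω hω
      have hω' := (Finset.mem_filter.1 (Finset.mem_coe.1 hω)).2
      refine Finset.mem_coe.2 (Finset.mem_filter.2 ⟨?_, ?_⟩)
      · rw [Fintype.mem_piFinset]
        intro i
        exact Finset.mem_image_of_mem _ (Finset.mem_range.2 (ω (σ i).1 (σ i).2).2)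
      · rintro ⟨J, hJ1, hJ2⟩
        refine hω' ⟨J.map σ.toEmbedding, ?_, ?_⟩
        · rw [Finset.card_map]
          have h3 : ((n * b : ℕ) : ℝ) = (n : ℝ) * b := by push_cast; ring
          rw [h3] at hJ1
          exact hJ1.le
        · intro x hx y hy _ hlt
          obtain ⟨i, hi, rfl⟩ := Finset.mem_map.1 hx
          obtain ⟨j, hj, rfl⟩ := Finset.mem_map.1 hy
          exact hJ2 i hi j hj hlt
    · intro ω _ ω' _ h
      funext a c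
      have h3 := congrFun h (finProdFinEquiv (a, c))
      have h4 : σ (finProdFinEquiv (a, c)) = (a, c) := Equiv.symm_apply_apply _ _
      have h5 : P (σ (finProdFinEquiv (a, c))).2 (ω (σ (finProdFinEquiv (a, c))).1 (σ (finProdFinEquiv (a, c))).2 : ℕ) =
        P (σ (finProdFinEquiv (a, c))).2 (ω' (σ (finProdFinEquiv (a, c))).1 (σ (finProdFinEquiv (a, c))).2 : ℕ) := h3
      rw [h4] at h5
      exact Fin.ext (hinj _ _ _ h5)
  have h3 : ∏ i : Fin (n * b), (#(F i) : ℝ) = (R : ℝ) ^ (n * b) := by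
    rw [Finset.prod_congr rfl (fun i _ => by rw [hF i]), Finset.prod_const, Finset.card_univ, Fintype.card_fin]
  rw [h3] at h1
  exact (Nat.cast_le.2 h2).trans h1

/-- the pigeonhole step: a member of the chain whose Fekete constant is stable under multiples `q ≤ Q` of the step -/
theorem UNI_ext (hFEK : FEK_stmt) (g : ℕ → Prop) (D Q K : ℕ) (s : ℕ → ℕ) (ε : ℝ) (hε : 0 < ε) (hK : 2 ≤ K * ε)
    (hs : ∀ i, 1 ≤ s i) (hDs : ∀ i, D ∣ s i) (hch : ∀ i q, 1 ≤ q → q ≤ Q → s i * q ∣ s (i + 1)) :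
    ∃ i < K, ∃ γ : ℝ, 0 ≤ γ ∧ γ ≤ 1 ∧ (∀ l : ℕ, ∃ Y, D ∣ Y ∧ (cw g Y (s i) l : ℝ) ≤ (γ + ε) * l) ∧
      ∀ q : ℕ, 1 ≤ q → q ≤ Q → ∃ l₀ : ℕ, ∀ l : ℕ, l₀ ≤ l → ∀ Y, D ∣ Y → (γ - ε) * l ≤ cw g Y (s i * q) l := by
  classical
  have hF : ∀ t : ℕ, ∃ γ : ℝ, D ∣ t → 0 ≤ γ ∧ γ ≤ 1 ∧
      (∀ l : ℕ, ∃ Y, D ∣ Y ∧ (cw g Y t l : ℝ) ≤ γ * l) ∧
      ∀ ε : ℝ, 0 < ε → ∃ l₀ : ℕ, ∀ l : ℕ, l₀ ≤ l → ∀ Y, D ∣ Y → (γ - ε) * l ≤ cw g Y t l := by
    intro t
    by_cases ht : D ∣ t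
    · obtain ⟨γ, h⟩ := hFEK g (fun Y => D ∣ Y) t ⟨0, dvd_zero D⟩ (fun Y hY => dvd_add hY ht)
      exact ⟨γ, fun _ => h⟩
    · exact ⟨0, fun h => absurd h ht⟩
  choose γ hγ using hF
  have hmono : ∀ t k : ℕ, D ∣ t → 1 ≤ k → γ (t * k) ≤ γ t := by
    intro t k ht hk
    obtain ⟨-, -, hlow, -⟩ := hγ t ht
    obtain ⟨-, -, -, hhigh⟩ := hγ (t * k) (Dvd.dvd.mul_right ht k)
    by_contra hc
    push Not at hc
    obtain ⟨l₀, hl₀⟩ := hhigh ((γ (t * k) - γ t) / 2) (by linarith)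
    obtain ⟨Y, hY, hYc⟩ := hlow ((l₀ + 1) * k)
    rw [EXT_split g Y t (l₀ + 1) k hk] at hYc
    push_cast at hYc
    have h2 : ∑ j ∈ range k, (γ (t * k) - (γ (t * k) - γ t) / 2) * ((l₀ + 1 : ℕ) : ℝ) ≤
        ∑ j ∈ range k, (cw g (Y + t * j) (t * k) (l₀ + 1) : ℝ) := by
      apply Finset.sum_le_sum
      intro j _
      exact hl₀ (l₀ + 1) (by omega) (Y + t * j) (dvd_add hY (Dvd.dvd.mul_right ht j))
    rw [Finset.sum_const, Finset.card_range, nsmul_eq_mul] at h2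
    push_cast at h2
    have h4 : (0 : ℝ) < ((l₀ : ℝ) + 1) * k := by
      have : (1 : ℝ) ≤ k := by exact_mod_cast hk
      positivity
    nlinarith
  obtain ⟨i, hi, hst⟩ : ∃ i < K, γ (s i) - ε / 2 ≤ γ (s (i + 1)) := by
    by_contra hcon
    push Not at hcon
    have h1 : ∀ i ≤ K, γ (s i) + i * (ε / 2) ≤ γ (s 0) := by
      intro i
      induction i with
      | zero =>
        intro _
        simp
      | succ i ih =>
        intro hi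
        have h2 := ih (by omega)
        have h3 := hcon i (by omega)
        push_cast
        linarith
    have h2 := h1 K le_rfl
    have h3 := (hγ (s K) (hDs K)).1
    have h4 := (hγ (s 0) (hDs 0)).2.1
    rcases Nat.eq_zero_or_pos K with h5 | h5
    · rw [h5, Nat.cast_zero, zero_mul] at hK
      linarith
    · have h6 := hcon 0 h5
      have h7 := h1 1 (by omega)
      have h8 : γ (s K) + K * (ε / 2) < γ (s 0) := by
        obtain ⟨K', rfl⟩ : ∃ K', K = K' + 1 := ⟨K - 1, by omega⟩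
        have h9 := h1 K' (by omega)
        have h10 := hcon K' (by omega)
        push_cast
        linarith
      linarith
  obtain ⟨h0, h1, hlow, -⟩ := hγ (s i) (hDs i)
  refine ⟨i, hi, γ (s i), h0, h1, ?_, ?_⟩
  · intro l
    obtain ⟨Y, hY, hYc⟩ := hlow l
    exact ⟨Y, hY, hYc.trans (mul_le_mul_of_nonneg_right (by linarith) (Nat.cast_nonneg l))⟩
  · intro q hq hqQ
    have hDq : D ∣ s i * q := Dvd.dvd.mul_right (hDs i) q
    obtain ⟨-, -, -, hhigh⟩ := hγ (s i * q) hDq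
    obtain ⟨l₀, hl₀⟩ := hhigh (ε / 2) (by positivity)
    refine ⟨l₀, fun l hl Y hY => ?_⟩
    have h2 := hl₀ l hl Y hY
    obtain ⟨m, hm⟩ := hch i q hq hqQ
    have hm1 : 1 ≤ m := by
      rcases Nat.eq_zero_or_pos m with h | h
      · rw [h, mul_zero] at hm
        have := hs (i + 1)
        omega
      · exact h
    have h3 := hmono (s i * q) m hDq hm1
    rw [← hm] at h3
    refine le_trans ?_ h2
    exact mul_le_mul_of_nonneg_right (by linarith) (Nat.cast_nonneg l)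

theorem UNI (hFC : FC_stmt) (hLLB : LLB_stmt) (hLRB : LRB_stmt) (hFEK : FEK_stmt) (hGEN : GEN_stmt) (hNES : NES_stmt)
    (α δ : ℝ) (hα0 : 0 ≤ α) (hα : α ≤ 1 / 2) (hδ : 0 < δ) (hδ1 : δ ≤ 1) :
    ∃ (k : ℕ) (η : ℝ) (Q K : ℕ), 1 ≤ k ∧ 0 < η ∧ 1 ≤ Q ∧ 1 ≤ K ∧ ∀ (g : ℕ → Prop) (D L : ℕ), 1 ≤ D → HypAt g α k η D L →
      ∀ s : ℕ → ℕ, (∀ i, 1 ≤ s i) → D ∣ s 0 → (∀ i, Q * s i ∣ s (i + 1)) → ∃ i < K, Gd g (2 * α - δ) (s i) := by
  classical
  obtain ⟨e, hee⟩ : ∃ e : ℝ, e = δ / 8 := ⟨_, rfl⟩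
  have he : 0 < e := by rw [hee]; positivity
  have he1 : e ≤ 1 := by rw [hee]; linarith
  obtain ⟨ε₁, ε₁', Q, hε₁, hε₁', hQ, hLRB⟩ := hLRB e he he1
  obtain ⟨ε₂, ε₂', hε₂, hε₂', hLLB⟩ := hLLB e he he1
  obtain ⟨k₂, hk₂⟩ := exists_nat_ge (8 / δ)
  have hk0 : (0 : ℝ) < k₂ := lt_of_lt_of_le (by positivity) hk₂
  have hk1 : 1 ≤ k₂ := by
    have h1 : 0 < k₂ := by exact_mod_cast hk0
    omega
  have hk3 : 1 / (k₂ : ℝ) ≤ e := by
    rw [hee, div_le_iff₀ hk0]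
    rw [div_le_iff₀ hδ] at hk₂
    linarith
  obtain ⟨εF, hεF⟩ : ∃ εF : ℝ, εF = min (min ε₁' ε₂') (δ / 16) := ⟨_, rfl⟩
  have hF0 : 0 < εF := by rw [hεF]; exact lt_min (lt_min hε₁' hε₂') (by positivity)
  have hF1 : εF ≤ ε₁' := by rw [hεF]; exact (min_le_left _ _).trans (min_le_left _ _)
  have hF2 : εF ≤ ε₂' := by rw [hεF]; exact (min_le_left _ _).trans (min_le_right _ _)
  have hF3 : εF ≤ δ / 16 := by rw [hεF]; exact min_le_right _ _
  obtain ⟨n, η, hn, hη, hFC⟩ := hFC (k₂ + k₂) εF (by omega) hF0 (by linarith)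
  obtain ⟨N, hN⟩ : ∃ N : ℕ, N = k₂ * k₂ := ⟨_, rfl⟩
  have hN0 : (0 : ℝ) ≤ N := Nat.cast_nonneg _
  obtain ⟨εX, hεX⟩ : ∃ εX : ℝ, εX = min (min ε₁ ε₂) e / (4 * (N + 1)) := ⟨_, rfl⟩
  have hX0 : 0 < εX := by rw [hεX]; exact div_pos (lt_min (lt_min hε₁ hε₂) he) (by positivity)
  have hXm : 4 * (N + 1) * εX = min (min ε₁ ε₂) e := by
    rw [hεX]
    field_simp
  have hX1 : 4 * (N + 1) * εX ≤ ε₁ := by rw [hXm]; exact (min_le_left _ _).trans (min_le_left _ _)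
  have hX2 : 4 * (N + 1) * εX ≤ ε₂ := by rw [hXm]; exact (min_le_left _ _).trans (min_le_right _ _)
  have hX3 : εX ≤ e := by
    have h1 : 4 * (N + 1) * εX ≤ e := by rw [hXm]; exact min_le_right _ _
    nlinarith
  obtain ⟨K, hK⟩ := exists_nat_ge (2 / εX)
  have hK2 : 2 ≤ K * εX := by rwa [div_le_iff₀ hX0] at hK
  have hK1 : 1 ≤ K := by
    have h1 : (0 : ℝ) < K := lt_of_lt_of_le (by positivity) hK
    have h2 : 0 < K := by exact_mod_cast h1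
    omega
  refine ⟨n * (k₂ + k₂), η, Nat.factorial Q, K, Nat.mul_pos hn (by omega), hη, Nat.factorial_pos Q, hK1, ?_⟩
  intro g D L hD hHyp sq hsq hDsq hchq
  by_contra hC
  push Not at hC
  have hDall : ∀ i, D ∣ sq i := by
    intro i
    induction i with
    | zero => exact hDsq
    | succ i ih => exact (ih.trans (Dvd.intro_left _ rfl)).trans (hchq i)
  obtain ⟨i, hi, γ, hγ0, hγ1, hE1, hE2⟩ := UNI_ext hFEK g D Q K sq εX hX0 hK2 hsq hDall (by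
    intro i q hq hqQ
    have h1 : q ∣ Nat.factorial Q := Nat.dvd_factorial (by omega) hqQ
    have h2 : sq i * q ∣ Nat.factorial Q * sq i := by
      rw [mul_comm (sq i) q]
      exact Nat.mul_dvd_mul_right h1 _
    exact h2.trans (hchq i))
  have hBs := hC i hi
  obtain ⟨s, hss⟩ : ∃ s : ℕ, s = sq i := ⟨_, rfl⟩
  have hs : 1 ≤ s := by rw [hss]; exact hsq i
  have hDs : D ∣ s := by rw [hss]; exact hDall i
  rw [← hss] at hE1 hE2 hBs
  obtain ⟨l₀, hl₀'⟩ := MAIN_max_l Q (fun q l₀ => q ≤ Q → ∀ l : ℕ, l₀ ≤ l → ∀ Y, D ∣ Y → (γ - εX) * l ≤ cw g Y (s * q) l)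
    (fun q l l' hll h hqQ m hm => h hqQ m (hll.trans hm)) (by
      intro q hq
      by_cases hqQ : q ≤ Q
      · obtain ⟨l, hl⟩ := hE2 q hq hqQ
        exact ⟨l, fun _ => hl⟩
      · exact ⟨0, fun h => absurd h hqQ⟩)
  have hl₀ : ∀ q : ℕ, 1 ≤ q → q ≤ Q → ∀ l : ℕ, l₀ ≤ l → ∀ Y, D ∣ Y → (γ - εX) * l ≤ cw g Y (s * q) l :=
    fun q hq hqQ => hl₀' q hq hqQ hqQ
  obtain ⟨γ₂, hγ₂0, hγ₂1, hF1', hF2'⟩ := hFEK g (fun Y => s ∣ Y) s ⟨0, dvd_zero _⟩ (fun Y hY => (Nat.dvd_add_right hY).2 (dvd_refl s))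
  obtain ⟨l₁, hl₁⟩ := hF2' εX hX0
  have hγ₂ : γ₂ ≤ 2 * α - δ := MAIN_bad g s (2 * α - δ) γ₂ hBs hF2'
  have hγγ : γ - εX ≤ γ₂ := by
    obtain ⟨l₂, hl₂⟩ := hE2 1 le_rfl hQ
    obtain ⟨Y, hY, hY2⟩ := hF1' (l₂ + 1)
    have h1 := hl₂ (l₂ + 1) (by omega) Y (hDs.trans hY)
    rw [mul_one] at h1
    have h2 : (0 : ℝ) < ((l₂ + 1 : ℕ) : ℝ) := by positivity
    exact le_of_mul_le_mul_right (h1.trans hY2) h2
  obtain ⟨R₁, hLRB⟩ := hLRB l₀
  obtain ⟨R₂, hLLB⟩ := hLLB l₁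
  obtain ⟨R, hRR⟩ : ∃ R : ℕ, R = R₁ + R₂ + L + l₀ + l₁ + 1 := ⟨_, rfl⟩
  obtain ⟨Z, hZs, hZ⟩ := hNES hGEN g s N l₁ γ₂ εX hs hX0 hγ₂0 hγ₂1 (fun l => by
    obtain ⟨Y, hY, hY2⟩ := hF1' l
    exact ⟨Y, hY, hY2.trans (mul_le_mul_of_nonneg_right (by linarith) (Nat.cast_nonneg _))⟩) hl₁ R (by omega) (by omega)
  obtain ⟨O, hO⟩ : ∃ O : Finset ℤ, O = (range k₂ ×ˢ range k₂).image (fun z => ((Z z.2 : ℤ) - Z z.1) / s) := ⟨_, rfl⟩
  have hOc : #O ≤ N := by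
    rw [hO, hN]
    refine card_image_le.trans ?_
    rw [card_product, card_range]
  have hQ0 : ∀ l : ℕ, l₀ ≤ l → ∀ Y, D ∣ Y → (γ - εX) * l ≤ cw g Y s l := by
    intro l hl Y hY
    have h1 := hl₀ 1 le_rfl hQ l hl Y hY
    rw [mul_one] at h1
    exact h1
  obtain ⟨Y, hDY, hBY, hYO⟩ := hGEN g (fun Y => D ∣ Y) s N l₀ γ εX hs (fun Y hY => (Nat.dvd_add_right hY).2 hDs) hX0 hγ0 hγ1 hE1 hQ0 R
    (by omega) (by omega) O hOc (∑ i ∈ range k₂, Z i + s * R)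
  obtain ⟨P, hP⟩ : ∃ P : Fin (k₂ + k₂) → ℕ → ℕ, P = Fin.addCases (fun i u => Z i + s * u) (fun i u => Y + Z i + s * u) := ⟨_, rfl⟩
  have hP1 : ∀ i u, P (Fin.castAdd k₂ i) u = Z i + s * u := fun i u => by
    rw [hP]
    simp only [Fin.addCases_left]
  have hP2 : ∀ i u, P (Fin.natAdd k₂ i) u = Y + Z i + s * u := fun i u => by
    rw [hP]
    simp only [Fin.addCases_right]
  have hcl := UNI_cli g α n (k₂ + k₂) η D L hHyp R P (by omega) (by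
    intro β u v huv
    have h1 : s * u < s * v := Nat.mul_lt_mul_of_pos_left huv hs
    refine Fin.addCases (fun i => ?_) (fun i => ?_) β
    · rw [hP1, hP1]
      omega
    · rw [hP2, hP2]
      omega) (by
    intro β u
    have h1 : D ∣ s * u := Dvd.dvd.mul_right hDs u
    refine Fin.addCases (fun i => ?_) (fun i => ?_) β
    · rw [hP1]
      exact (Nat.dvd_add_right (hDs.trans (hZs _))).2 h1
    · rw [hP2]
      exact (Nat.dvd_add_right ((Nat.dvd_add_right hDY).2 (hDs.trans (hZs _)))).2 h1)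
  obtain ⟨E, hE⟩ : ∃ E : Fin (k₂ + k₂) → Fin (k₂ + k₂) → ℕ → ℕ → Prop, E = fun β β' u v => (P β u < P β' v → g (P β' v - P β u)) := ⟨_, rfl⟩
  obtain ⟨a, ha, hsum, hpair⟩ := hFC R α E (by omega) hα0 (by
    refine le_trans (le_of_eq ?_) hcl
    refine congrArg (fun z : Finset (Om n (k₂ + k₂) R) => ((#z : ℕ) : ℝ)) ?_
    ext ω
    rw [mem_filter, mem_filter, hE])
  refine MAIN_core g s R k₂ α εF e ε₁ ε₂ ε₁' ε₂' εX γ γ₂ Q l₀ l₁ N Y D Z a P hk1 hs (by omega) hDs hDY hZs hP1 hP2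
    (by linarith) hγ0 hγ₂0 hγ₂1 he hF1 hF2 hX1 hX2 hX0 (hLLB R (by omega)) (hLRB R (by omega)) hl₀ hl₁ ?_ ?_ ?_ ha hsum E (fun β β' u v => by rw [hE]) hpair
    (by linarith) (by linarith)
  · intro i j hij hj
    refine hZ i j hij (lt_of_lt_of_le hj ?_)
    rw [hN]
    nlinarith
  · intro i hi
    refine le_trans (Nat.add_le_add_right ?_ _) hBY
    exact single_le_sum (f := Z) (fun _ _ => Nat.zero_le _) (mem_range.2 hi)
  · intro i hi j hj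
    obtain ⟨Y', hY', hYe, hYc⟩ := hYO (((Z j : ℤ) - Z i) / s) (by
      rw [hO, mem_image]
      exact ⟨(i, j), mem_product.2 ⟨mem_range.2 hi, mem_range.2 hj⟩, rfl⟩)
    refine ⟨Y', hY', ?_, hYc⟩
    have h1 : (s : ℤ) ∣ (Z j : ℤ) - Z i := dvd_sub (by exact_mod_cast hZs j) (by exact_mod_cast hZs i)
    rw [Int.mul_ediv_cancel' h1] at hYe
    have h2 : ((Y' + s * R + Z i : ℕ) : ℤ) = ((Y + Z j : ℕ) : ℤ) := by
      push_cast
      linarith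
    exact_mod_cast h2

end Pool.Agent.HF
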