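import Pool.Agent.helper84.HF.SpecH

set_option autoImplicit false

open Finset

namespace Pool.Agent.HF

theorem GRO_tele (f : ℕ → ℝ) (n m : ℕ) :
    ∑ j ∈ range n, (f (j + m) - f j) = ∑ i ∈ range m, f (n + i) - ∑ i ∈ range m, f i := by
  have h1 : ∑ x ∈ range (n + m), f x = ∑ x ∈ range n, f x + ∑ x ∈ range m, f (n + x) := sum_range_add f n m
  have h2 : ∑ x ∈ range (m + n), f x = ∑ x ∈ range m, f x + ∑ x ∈ range n, f (m + x) := sum_range_add f m n
  rw [add_comm m n, h1] at h2
  rw [sum_sub_distrib]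
  have h3 : ∑ j ∈ range n, f (j + m) = ∑ j ∈ range n, f (m + j) := sum_congr rfl fun j _ => by rw [add_comm]
  rw [h3]
  linarith

/-- a lower bound for the entropy from an upper bound for the fibres -/
theorem GRO_low {α ι : Type} (X : Finset α) (f : α → ι) (c : ℝ) (hX : X.Nonempty)
    (h : ∀ (i : ι) [DecidablePred fun x => f x = i], ((X.filter (fun x => f x = i)).card : ℝ) ≤ c) :
    Real.log X.card - Real.log c ≤ H X f := by
  classical
  unfold H
  have hX0 : (0 : ℝ) < X.card := by exact_mod_cast hX.card_pos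
  have h1 : ∀ i ∈ X.image f, (((X.filter (fun x => f x = i)).card : ℝ) / X.card) * (Real.log X.card - Real.log c) ≤
      Real.negMulLog (((X.filter (fun x => f x = i)).card : ℝ) / X.card) := by
    intro i hi
    have h2 : (0 : ℝ) < ((X.filter (fun x => f x = i)).card : ℝ) := by
      obtain ⟨x, hx, hxi⟩ := mem_image.1 hi
      exact_mod_cast card_pos.2 ⟨x, mem_filter.2 ⟨hx, hxi⟩⟩
    unfold Real.negMulLog
    have h3 : Real.log (((X.filter (fun x => f x = i)).card : ℝ) / X.card) ≤ Real.log c - Real.log X.card := by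
      rw [Real.log_div h2.ne' hX0.ne']
      have := Real.log_le_log h2 (h i)
      linarith
    have h4 : 0 ≤ ((X.filter (fun x => f x = i)).card : ℝ) / X.card := by positivity
    nlinarith
  have h2 : ∑ i ∈ X.image f, (((X.filter (fun x => f x = i)).card : ℝ) / X.card) = 1 := by
    rw [← sum_div]
    have h3 : (∑ i ∈ X.image f, ((X.filter (fun x => f x = i)).card : ℝ)) = X.card := by
      have h4 := card_eq_sum_card_fiberwise (f := f) (s := X) (t := X.image f) (fun x hx => mem_coe.2 (mem_image_of_mem f hx))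
      rw [← Nat.cast_sum]
      exact_mod_cast h4.symm
    rw [h3, div_self hX0.ne']
  calc Real.log X.card - Real.log c = (∑ i ∈ X.image f, (((X.filter (fun x => f x = i)).card : ℝ) / X.card)) *
        (Real.log X.card - Real.log c) := by rw [h2, one_mul]
    _ = ∑ i ∈ X.image f, (((X.filter (fun x => f x = i)).card : ℝ) / X.card) * (Real.log X.card - Real.log c) := sum_mul _ _ _
    _ ≤ _ := by
      refine (sum_le_sum h1).trans (le_of_eq ?_)
      exact sum_congr rfl fun i _ => rfl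

theorem GRO_px (N j j' x : ℕ) (h : j ≤ j') (h' : j' ≤ N) : px N j x = px N j' x / 2 ^ (j' - j) := by
  unfold px
  rw [Nat.div_div_eq_div_mul, ← pow_add]
  congr 2
  omega

/-- the entropy of the first digits is large -/
theorem GRO_Hlow (R : Finset ℕ) (N j : ℕ) (hR : R.Nonempty) (hj : j ≤ N) :
    Real.log R.card - ((N : ℝ) - j) * Real.log 2 ≤ H R (px N j) := by
  have h1 := GRO_low R (px N j) ((2 : ℝ) ^ (N - j)) hR (by
    intro i _
    have h2 : (R.filter (fun x => px N j x = i)) ⊆ Ico (i * 2 ^ (N - j)) ((i + 1) * 2 ^ (N - j)) := by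
      intro x hx
      rw [mem_filter] at hx
      rw [mem_Ico]
      have h3 : x / 2 ^ (N - j) = i := hx.2
      have h4 : 0 < 2 ^ (N - j) := by positivity
      constructor
      · exact (Nat.le_div_iff_mul_le h4).1 h3.ge
      · exact (Nat.div_lt_iff_lt_mul h4).1 (by omega)
    have h3 := card_le_card h2
    rw [Nat.card_Ico, ← Nat.sub_mul, Nat.add_sub_cancel_left, one_mul] at h3
    exact_mod_cast h3)
  rw [Real.log_pow, Nat.cast_sub hj] at h1
  exact h1

/-- the entropy of the first digits is at most their number -/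
theorem GRO_Hup (hB : HBS_stmt) (R : Finset ℕ) (N j : ℕ) (hR : R.Nonempty) (hN : ∀ u ∈ R, u < 2 ^ N) (hj : j ≤ N) :
    H R (px N j) ≤ j * Real.log 2 := by
  obtain ⟨-, h1, -, -⟩ := hB ℕ ℕ ℕ R (px N j) (px N j) hR
  have h2 := h1 (range (2 ^ j)) (by
    intro x hx
    rw [mem_range]
    unfold px
    rw [Nat.div_lt_iff_lt_mul (by positivity), ← pow_add]
    have := hN x hx
    rwa [show j + (N - j) = N by omega])
  rw [card_range] at h2
  push_cast at h2
  rw [Real.log_pow] at h2
  exact h2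

open Classical in
theorem GRO_gen (hB : HBS_stmt) (hNIC : NIC_stmt) (hPOR : POR_stmt) (m N K : ℕ) (R : Finset ℕ) (G : ℕ → ℕ → Prop)
    (hm : 2 ^ 17 ≤ m) (hN0 : 5000 * m ≤ N) (hR : R.Nonempty) (hRN : ∀ u ∈ R, u < 2 ^ N)
    (hlog : 7 / 32 * (N * Real.log 2) ≤ Real.log R.card)
    (hG : ∀ u ∈ R, 128 * ((Finset.range (N + 1)).filter (fun j => ¬ G u j)).card ≤ N)
    (hpor : ∀ j p : ℕ, j + m ≤ N → ((R.filter (fun u => G u j ∧ px N j u = p)).image (px N (j + m))).card ^ 4 ≤ 2 ^ (3 * m))
    (hPN : ∀ i : ℕ, 1 / 32 ≤ qq R N i → qq R N i / 2 ≤ PN R N K i)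
    (hST : ∀ j : ℕ, j + (2 * m + 3) ≤ N → hh R N m j - 75 + PN R N K (j + (2 * m + 3)) * (((m : ℝ) - 3) * Real.log 2 - hh R N m j) ≤
      H (Rk (K + 1) R) (fun u => px N (j + m) (sm u)) - H (Rk (K + 1) R) (fun u => px N j (sm u))) :
    Real.log R.card + N * Real.log 2 / 1024 ≤ H (Rk (K + 1) R) sm := by
  obtain ⟨L, hL⟩ : ∃ L : ℝ, L = Real.log 2 := ⟨_, rfl⟩
  have hL1 : 0.69 < L := by rw [hL]; linarith [Real.log_two_gt_d9]
  have hL2 : L < 0.6932 := by rw [hL]; linarith [Real.log_two_lt_d9]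
  rw [← hL] at hlog hST ⊢
  have hmR : (131072 : ℝ) ≤ m := by
    have h : 131072 ≤ m := le_trans (by norm_num) hm
    exact_mod_cast h
  have hNR : (5000 : ℝ) * m ≤ N := by exact_mod_cast hN0
  have hR0 : (0 : ℝ) < R.card := by exact_mod_cast hR.card_pos
  have hXne : (Rk (K + 1) R).Nonempty := Fintype.piFinset_nonempty.2 fun _ => hR
  -- the entropies
  obtain ⟨V, hV⟩ : ∃ V : ℕ → ℝ, ∀ j, V j = H (Rk (K + 1) R) (fun u => px N j (sm u)) := ⟨_, fun _ => rfl⟩
  obtain ⟨U, hU⟩ : ∃ U : ℕ → ℝ, ∀ j, U j = H R (px N j) := ⟨_, fun _ => rfl⟩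
  have hVN : V N = H (Rk (K + 1) R) sm := by
    rw [hV]
    have e : (fun u : Fin (K + 1) → ℕ => px N N (sm u)) = sm := by
      funext u
      unfold px
      rw [Nat.sub_self, pow_zero, Nat.div_one]
    rw [e]
  have hV0 : ∀ j, 0 ≤ V j := by
    intro j
    rw [hV]
    exact (hB _ _ ℕ (Rk (K + 1) R) (fun u => px N j (sm u)) (fun _ => 0) hXne).1
  have hVm : ∀ j, j ≤ N → V j ≤ V N := by
    intro j hj
    rw [hV, hV]
    refine (hB _ _ _ (Rk (K + 1) R) (fun u => px N N (sm u)) (fun u => px N j (sm u)) hXne).2.2.2 ?_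
    intro x _ y _ hxy
    show px N j (sm x) = px N j (sm y)
    rw [GRO_px N j N _ hj le_rfl, GRO_px N j N _ hj le_rfl]
    exact congrArg (fun t => t / 2 ^ (N - j)) hxy
  -- the proportions
  obtain ⟨b, hb⟩ : ∃ b : ℕ → ℝ, ∀ j, b j = ((R.filter (fun u => ¬ G u j)).card : ℝ) / R.card := ⟨_, fun _ => rfl⟩
  have hb0 : ∀ j, 0 ≤ b j := by
    intro j
    rw [hb]
    positivity
  have hb1 : ∀ j, b j ≤ 1 := by
    intro j
    rw [hb, div_le_one hR0]
    exact_mod_cast card_filter_le _ _
  have hbs : ∑ j ∈ range (N + 1), b j ≤ N / 128 := by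
    have h1 : ∑ j ∈ range (N + 1), b j = (∑ u ∈ R, (((Finset.range (N + 1)).filter (fun j => ¬ G u j)).card : ℝ)) / R.card := by
      rw [sum_congr rfl fun j _ => hb j, ← sum_div]
      congr 1
      have h2 : ∑ j ∈ range (N + 1), (R.filter (fun u => ¬ G u j)).card =
          ∑ u ∈ R, ((Finset.range (N + 1)).filter (fun j => ¬ G u j)).card := by
        simp only [card_filter]
        exact sum_comm
      exact_mod_cast h2
    rw [h1, div_le_iff₀ hR0]
    have h3 : ∀ u ∈ R, (((Finset.range (N + 1)).filter (fun j => ¬ G u j)).card : ℝ) ≤ N / 128 := by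
      intro u hu
      have h4 : ((128 * ((Finset.range (N + 1)).filter (fun j => ¬ G u j)).card : ℕ) : ℝ) ≤ N := by exact_mod_cast hG u hu
      push_cast at h4
      linarith
    refine (sum_le_sum h3).trans (le_of_eq ?_)
    rw [sum_const, nsmul_eq_mul, mul_comm]
  have hq1 : ∀ i, qq R N i ≤ 1 := by
    intro i
    unfold qq
    rw [div_le_one hR0]
    exact_mod_cast card_filter_le _ _
  have hP0 : ∀ i, 0 ≤ PN R N K i := by
    intro i
    unfold PN
    positivity
  have hP1 : ∀ i, PN R N K i ≤ 1 := by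
    intro i
    unfold PN
    have h0 : (0 : ℝ) < ((Rk (K + 1) R).card : ℝ) := by exact_mod_cast hXne.card_pos
    rw [div_le_one h0]
    exact_mod_cast card_filter_le _ _
  obtain ⟨s, hs⟩ : ∃ s : ℕ, s = 2 * m + 3 := ⟨_, rfl⟩
  have hsR : (s : ℝ) = 2 * m + 3 := by rw [hs]; push_cast; ring
  have hsN : s ≤ N := by omega
  obtain ⟨n, hn⟩ : ∃ n : ℕ, n = N - s + 1 := ⟨_, rfl⟩
  have hnN : n ≤ N := by omega
  have hnR : (n : ℝ) ≤ N := by exact_mod_cast hnN
  rw [← hs] at hST
  -- every term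
  have hterm : ∀ j ∈ range n, (U (j + m) - U j) - 78 + m * L / 4 * (1 / 2 * (qq R N (j + s) - 1 / 32 - b j)) ≤ V (j + m) - V j := by
    intro j hj
    rw [mem_range] at hj
    have h1 := hST j (by omega)
    have h2 := hPOR R N m j G hR hRN (by omega) (fun p => hpor j p (by omega))
    rw [← hb j, ← hL] at h2
    rw [hV, hV]
    have e : hh R N m j = U (j + m) - U j := by
      unfold hh
      rw [hU, hU]
    rw [e] at h1 h2
    refine le_trans ?_ h1
    have h3 : m * L / 4 * (1 - b j) - 4 * L ≤ ((m : ℝ) - 3) * L - (U (j + m) - U j) := by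
      have e2 : m * L / 4 * (1 - b j) - 4 * L = ((m : ℝ) - 3) * L - (L + 3 / 4 * (m * L) + 1 / 4 * (m * L) * b j) := by ring
      rw [e2]
      linarith
    have h4 : m * L / 4 * (PN R N K (j + s) * (1 - b j)) - 4 * L ≤
        PN R N K (j + s) * (((m : ℝ) - 3) * L - (U (j + m) - U j)) := by
      have h5 := mul_le_mul_of_nonneg_left h3 (hP0 (j + s))
      have h6 : PN R N K (j + s) * (4 * L) ≤ 1 * (4 * L) := mul_le_mul_of_nonneg_right (hP1 _) (by linarith)
      have e3 : PN R N K (j + s) * (m * L / 4 * (1 - b j) - 4 * L) =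
        m * L / 4 * (PN R N K (j + s) * (1 - b j)) - PN R N K (j + s) * (4 * L) := by ring
      rw [e3] at h5
      linarith
    have h5 : 1 / 2 * (qq R N (j + s) - 1 / 32 - b j) ≤ PN R N K (j + s) * (1 - b j) := by
      have hb1' := hb1 j
      have hb0' := hb0 j
      by_cases hq : 1 / 32 ≤ qq R N (j + s)
      · have h6 := hPN (j + s) hq
        have h7 : qq R N (j + s) / 2 * (1 - b j) ≤ PN R N K (j + s) * (1 - b j) :=
          mul_le_mul_of_nonneg_right h6 (by linarith)
        have h8 : qq R N (j + s) * b j ≤ 1 * b j := mul_le_mul_of_nonneg_right (hq1 _) hb0'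
        have e4 : qq R N (j + s) / 2 * (1 - b j) = qq R N (j + s) / 2 - qq R N (j + s) * b j / 2 := by ring
        rw [e4] at h7
        linarith
      · push Not at hq
        have h6 : 0 ≤ PN R N K (j + s) * (1 - b j) := mul_nonneg (hP0 _) (by linarith)
        linarith
    have h6 : m * L / 4 * (1 / 2 * (qq R N (j + s) - 1 / 32 - b j)) ≤ m * L / 4 * (PN R N K (j + s) * (1 - b j)) :=
      mul_le_mul_of_nonneg_left h5 (by positivity)
    linarith
  have hsum := sum_le_sum hterm
  rw [GRO_tele V n m] at hsum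
  -- the right side
  have hright : ∑ i ∈ range m, V (n + i) - ∑ i ∈ range m, V i ≤ m * V N := by
    have h1 : ∑ i ∈ range m, V (n + i) ≤ ∑ i ∈ range m, V N := by
      refine sum_le_sum fun i hi => hVm _ ?_
      rw [mem_range] at hi
      omega
    rw [sum_const, card_range, nsmul_eq_mul] at h1
    have h2 : 0 ≤ ∑ i ∈ range m, V i := sum_nonneg fun i _ => hV0 i
    linarith
  -- the left side
  have hleft : ∑ j ∈ range n, ((U (j + m) - U j) - 78 + m * L / 4 * (1 / 2 * (qq R N (j + s) - 1 / 32 - b j))) =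
      (∑ i ∈ range m, U (n + i) - ∑ i ∈ range m, U i) - 78 * n +
        m * L / 8 * (∑ j ∈ range n, qq R N (j + s) - n / 32 - ∑ j ∈ range n, b j) := by
    rw [← GRO_tele U n m, sum_add_distrib, sum_sub_distrib, sum_const, card_range, nsmul_eq_mul]
    have e : ∑ j ∈ range n, m * L / 4 * (1 / 2 * (qq R N (j + s) - 1 / 32 - b j)) =
        m * L / 8 * (∑ j ∈ range n, qq R N (j + s) - n / 32 - ∑ j ∈ range n, b j) := by
      rw [← mul_sum, ← mul_sum, sum_sub_distrib, sum_sub_distrib, sum_const, card_range, nsmul_eq_mul]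
      ring
    rw [e]
    ring
  have hU1 : (m : ℝ) * (Real.log R.card - s * L) ≤ ∑ i ∈ range m, U (n + i) := by
    have h1 : ∑ i ∈ range m, (Real.log R.card - s * L) ≤ ∑ i ∈ range m, U (n + i) := by
      refine sum_le_sum fun i hi => ?_
      rw [mem_range] at hi
      rw [hU]
      have h2 := GRO_Hlow R N (n + i) hR (by omega)
      rw [← hL] at h2
      refine le_trans ?_ h2
      have h3 : (N : ℝ) ≤ (n + i : ℕ) + s := by
        have : N ≤ (n + i) + s := by omega
        exact_mod_cast this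
      have h4 : ((N : ℝ) - ((n + i : ℕ) : ℝ)) * L ≤ s * L := mul_le_mul_of_nonneg_right (by linarith) (by linarith)
      linarith
    rw [sum_const, card_range, nsmul_eq_mul] at h1
    exact h1
  have hU2 : ∑ i ∈ range m, U i ≤ m * (m * L) := by
    have h1 : ∑ i ∈ range m, U i ≤ ∑ i ∈ range m, (m * L) := by
      refine sum_le_sum fun i hi => ?_
      rw [mem_range] at hi
      rw [hU]
      have h2 := GRO_Hup hB R N i hR hRN (by omega)
      rw [← hL] at h2
      refine h2.trans (mul_le_mul_of_nonneg_right ?_ (by linarith))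
      exact_mod_cast hi.le
    rw [sum_const, card_range, nsmul_eq_mul] at h1
    exact h1
  have hq : (N : ℝ) / 16 - s ≤ ∑ j ∈ range n, qq R N (j + s) := by
    have h1 := hNIC R N hR hRN (by omega) (by rw [← hL]; exact hlog)
    have h2 : ∑ i ∈ range (N + 1), qq R N i = ∑ i ∈ range s, qq R N i + ∑ j ∈ range n, qq R N (s + j) := by
      rw [show N + 1 = s + n by omega]
      exact sum_range_add _ _ _
    have h3 : ∑ i ∈ range s, qq R N i ≤ s := by
      have h4 : ∑ i ∈ range s, qq R N i ≤ ∑ i ∈ range s, (1 : ℝ) := sum_le_sum fun i _ => hq1 i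
      rw [sum_const, card_range, nsmul_eq_mul, mul_one] at h4
      exact h4
    have h5 : ∑ j ∈ range n, qq R N (s + j) = ∑ j ∈ range n, qq R N (j + s) := sum_congr rfl fun j _ => by rw [add_comm]
    linarith
  have hbn : ∑ j ∈ range n, b j ≤ N / 128 := by
    refine le_trans ?_ hbs
    exact sum_le_sum_of_subset_of_nonneg (range_subset_range.2 (by omega)) fun i _ _ => hb0 i
  rw [hleft] at hsum
  have hmain : (m : ℝ) * (Real.log R.card - s * L) - m * (m * L) - 78 * N + m * L / 8 * (3 * N / 128 - s) ≤ m * V N := by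
    have h1 : (3 : ℝ) * N / 128 - s ≤ ∑ j ∈ range n, qq R N (j + s) - n / 32 - ∑ j ∈ range n, b j := by linarith
    have h2 : m * L / 8 * (3 * (N : ℝ) / 128 - s) ≤ m * L / 8 * (∑ j ∈ range n, qq R N (j + s) - n / 32 - ∑ j ∈ range n, b j) :=
      mul_le_mul_of_nonneg_left h1 (by positivity)
    linarith
  rw [← hVN]
  have hm0 : (0 : ℝ) < m := by linarith
  -- final numerical estimate
  have hfin : (m : ℝ) * (Real.log R.card + N * L / 1024) ≤
      (m : ℝ) * (Real.log R.card - s * L) - m * (m * L) - 78 * N + m * L / 8 * (3 * N / 128 - s) := by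
    have e : (m : ℝ) * (Real.log R.card - s * L) - m * (m * L) - 78 * N + m * L / 8 * (3 * N / 128 - s) -
        m * (Real.log R.card + N * L / 1024) = m * (2 * L / 1024 * N - (9 / 8 * s * L + m * L)) - 78 * N := by ring
    have h1 : 9 / 8 * (s : ℝ) * L + m * L ≤ 3 * m := by
      rw [hsR]
      nlinarith
    have h2 : 0 ≤ m * (2 * L / 1024 * N - (9 / 8 * s * L + m * L)) - 78 * N := by
      have hN0' : (0 : ℝ) ≤ N := by positivity
      have h3 : (0.00134 : ℝ) * N ≤ 2 * L / 1024 * N := by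
        apply mul_le_mul_of_nonneg_right _ hN0'
        linarith
      have h4 : (3 : ℝ) * m ≤ 0.0006 * N := by linarith
      have h5 : (0.00074 : ℝ) * N ≤ 2 * L / 1024 * N - (9 / 8 * s * L + m * L) := by linarith
      have h6 : (m : ℝ) * (0.00074 * N) ≤ m * (2 * L / 1024 * N - (9 / 8 * s * L + m * L)) :=
        mul_le_mul_of_nonneg_left h5 hm0.le
      have h7 : (78 : ℝ) * N ≤ m * (0.00074 * N) := by
        have h8 : (78 : ℝ) ≤ m * 0.00074 := by linarith
        nlinarith
      linarith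
    linarith
  have h9 := hfin.trans hmain
  exact le_of_mul_le_mul_left h9 hm0

theorem GRO_proof (hB : HBS_stmt) (hNIC : NIC_stmt) (hPOR : POR_stmt) (hPNQ : PNQ_stmt) (hSTJ : STJ_stmt) : GRO_stmt := by
  intro m hm
  refine ⟨5000 * m, ?_⟩
  intro N hN R G hR hRN hlog hG hpor
  refine GRO_gen hB hNIC hPOR m N (4 ^ (2 * m + 53)) R G hm hN hR hRN hlog hG hpor ?_ ?_
  · intro i hi
    exact hPNQ R N _ i hR (Nat.one_le_pow _ _ (by norm_num)) hi
  · intro j hj
    exact hSTJ R N m j hR hRN (le_trans (by norm_num) hm) hj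

end Pool.Agent.HF
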